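import Pool.Agent.Work.MP_3175b5_al_h54.Final

/-!
# Disjoint cosets: the largest index gcd is at least `k / (9 L (1 + log L))`

`L = ⌊log₂ k⌋`. The group is arbitrary.
-/

open scoped Pointwise

namespace Pool.Agent.Results.MP_3175b5_al.AlmostLinear

theorem result {G : Type*} [Group G] (k : ℕ) (hk : 2 ≤ k)
    (a : Fin k → G) (H : Fin k → Subgroup G)
    (hfi : ∀ i, (H i).FiniteIndex)
    (hdisj : ∀ i j, i ≠ j → Disjoint (a i • (H i : Set G)) (a j • (H j : Set G))) :
    ∃ i j, i < j ∧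
      (k : ℝ) ≤ 9 * (Nat.gcd (H i).index (H j).index : ℝ) *
        (Nat.log 2 k * (1 + Real.log (Nat.log 2 k))) :=
  Pool.DisjCosets.main k hk a H hfi hdisj

end Pool.Agent.Results.MP_3175b5_al.AlmostLinear
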