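import Pool.Agent.Work.MP_3175b5_al_helper36.Main

/-!
A counterexample to the disjoint cosets conjecture: a group of order 3456 with 577 pairwise
disjoint left cosets such that any two of the indices have greatest common divisor 576.

The group is `S_4 x S_4 x S_3`. Write `K = S_4 x S_4`. All but 24 of the fibres `{y} x S_3` are
left cosets of `1 x S_3`. The other 24 fibres lie over a 3 x 3 array in `K` whose three rows and
first two columns are cosets of subgroups of order 3, and over one more coset for each of these
five; they are cut into 23 left cosets of subgroups of order 6, one left coset of a subgroup of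
order 2, one left coset of a subgroup of order 3, and one single element.
-/

namespace Pool.Agent.Results.MP_3175b5_al.Counterexample577

open Pointwise

/-- There are a group `G` (of order 3456) and 577 pairwise disjoint left cosets `a i • H i` of
subgroups of finite index in `G` such that `gcd [G : H i] [G : H j] = 576` for all `i ≠ j`. -/
theorem result :
    ∃ (G : Type) (_ : Group G) (H : Fin 577 → Subgroup G) (a : Fin 577 → G),
      Nat.card G = 3456 ∧
      (∀ i, (H i).FiniteIndex) ∧
      (∀ i j, i ≠ j → Disjoint (a i • (H i : Set G)) (a j • (H j : Set G))) ∧
      ∀ i j, i ≠ j → Nat.gcd (H i).index (H j).index = 576 := by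
  obtain ⟨H, a, h1, h2, h3⟩ := Pool.Agent.MP3175b5.Counter.main
  exact ⟨Pool.Agent.MP3175b5.Counter.G, inferInstance, H, a,
    Pool.Agent.MP3175b5.Counter.card_G, h1, h2, h3⟩

end Pool.Agent.Results.MP_3175b5_al.Counterexample577
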