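import Pool.Agent.Work.MP_3175b5_al_h54.Smooth

/-!
# Disjoint cosets: the exact conclusion when at most one index has a large smooth part
-/

open scoped Pointwise

namespace Pool.Agent.Results.MP_3175b5_al.OneLargeSmoothPart

theorem result {G : Type*} [Group G] (k : ℕ) (hk : 2 ≤ k)
    (a : Fin k → G) (H : Fin k → Subgroup G)
    (hfi : ∀ i, (H i).FiniteIndex)
    (hdisj : ∀ i j, i ≠ j → Disjoint (a i • (H i : Set G)) (a j • (H j : Set G)))
    (r : Fin k)
    (hsmooth : ∀ i, i ≠ r →
      ∏ p ∈ Finset.range k, p ^ ((H i).index.factorization p) < k) :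
    ∃ i j, i < j ∧ k ≤ Nat.gcd (H i).index (H j).index :=
  Pool.DisjCosets.small_smooth k hk a H hfi hdisj r hsmooth

end Pool.Agent.Results.MP_3175b5_al.OneLargeSmoothPart
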